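import Pool.Agent.H67.TG.Tbp

/-!
# Times with live windows: two samples (row TBP)
-/

set_option autoImplicit false

namespace Pool.KA.TBP

open Finset Real
open Pool.Agent.H49.Ent Pool.Agent.H32.Dense Pool.STK

/-- Telescope. -/
lemma tele {f : ℕ → ℝ} {J : ℕ} (hf : ∀ v v' : ℕ, v ≤ v' → v' ≤ J → f v ≤ f v') (h0 : 0 ≤ f 0)
    (K : ℕ) : ∑ v ∈ (range J).filter (fun v => v + K ≤ J), (f (v + K) - f v) ≤ K * f J := by
  have hJ : 0 ≤ f J := h0.trans (hf 0 J (Nat.zero_le _) le_rfl)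
  induction K with
  | zero => simp
  | succ K ih =>
    by_cases hK : K + 1 ≤ J
    · have e1 : (range J).filter (fun v => v + (K + 1) ≤ J) = range (J - K) := by
        ext v
        simp only [Finset.mem_filter, Finset.mem_range]
        omega
      have e2 : ∑ v ∈ range (J - K), (f (v + (K + 1)) - f (v + K)) = f J - f K := by
        have h1 := Finset.sum_range_sub (fun v => f (v + K)) (J - K)
        have h2 : J - K + K = J := by omega
        rw [h2, Nat.zero_add] at h1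
        rw [← h1]
        refine Finset.sum_congr rfl fun v _ => ?_
        have h3 : v + (K + 1) = v + 1 + K := by ring
        rw [h3]
      have e3 : ∑ v ∈ range (J - K), (f (v + K) - f v) ≤
          ∑ v ∈ (range J).filter (fun v => v + K ≤ J), (f (v + K) - f v) := by
        refine Finset.sum_le_sum_of_subset_of_nonneg ?_ ?_
        · intro v hv
          simp only [Finset.mem_filter, Finset.mem_range] at hv ⊢
          omega
        · intro v hv _
          have := hf v (v + K) (by omega) (Finset.mem_filter.1 hv).2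
          linarith
      have h4 : 0 ≤ f K := h0.trans (hf 0 K (Nat.zero_le _) (by omega))
      rw [e1]
      have e5 : ∑ v ∈ range (J - K), (f (v + (K + 1)) - f v) =
          ∑ v ∈ range (J - K), (f (v + (K + 1)) - f (v + K)) +
            ∑ v ∈ range (J - K), (f (v + K) - f v) := by
        rw [← Finset.sum_add_distrib]
        exact Finset.sum_congr rfl fun v _ => by ring
      rw [e5, e2]
      push_cast
      linarith
    · have e1 : (range J).filter (fun v => v + (K + 1) ≤ J) = ∅ := by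
        ext v
        simp only [Finset.mem_filter, Finset.mem_range, Finset.notMem_empty, iff_false]
        omega
      rw [e1, Finset.sum_empty]
      positivity

variable {m J : ℕ}

/-- The labels of the window. -/
noncomputable def Wv (F : Fam m J) (v : ℕ) (ω : F.Ω) : ℕ × (((Fin m → ℝ) × (Fin m → ℝ)) × F.ζ) :=
  (F.T1 v ω, (F.l ω, F.Z ω))

/-- The conditional kernel. -/
noncomputable def kv (F : Fam m J) (μ : F.Ω → ℕ → ℝ) (v v' : ℕ) (ω : F.Ω) (s : ℕ) : ℝ :=
  lowk (μ ω) (J - v') s / pm (μ ω) J v (F.T ω)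

lemma kv_nonneg {F : Fam m J} {μ : F.Ω → ℕ → ℝ} (h : F.Ker μ) (v v' : ℕ) (ω : F.Ω) (s : ℕ) :
    0 ≤ kv F μ v v' ω s :=
  div_nonneg (lowk_nonneg (h.nonneg ω) _ _) (pm_nonneg (h.nonneg ω) _ _ _)

lemma kv_det {F : Fam m J} {μ : F.Ω → ℕ → ℝ} (h : F.Ker μ) (v v' : ℕ) :
    Det F.p (Wv F v) (kv F μ v v') := by
  intro ω ω' hω hω' he
  have e1 : F.T1 v ω = F.T1 v ω' := (Prod.ext_iff.mp he).1
  have e2 : μ ω = μ ω' := h.det ω ω' hω hω' (Prod.ext_iff.mp he).2
  have e3 : pm (μ ω) J v (F.T ω) = pm (μ ω') J v (F.T ω') := by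
    rw [e2]
    exact pm_congr _ _ _ e1
  funext s
  unfold kv
  rw [e3, e2]

/-- The subcells of the window. -/
def cl (F : Fam m J) (v K : ℕ) (ω : F.Ω) : Finset ℕ :=
  (range (2 ^ K)).image fun j => F.T1 v ω * 2 ^ K + j

lemma mem_cl {F : Fam m J} {v K : ℕ} (hJ : v + K ≤ J) {ω w : F.Ω} (h : F.T1 v w = F.T1 v ω) :
    F.T1 (v + K) w = F.T1 v ω * 2 ^ K + F.T1 (v + K) w % 2 ^ K := by
  have h1 := F.T1_T1 (Nat.le_add_right v K) hJ w
  rw [Nat.add_sub_cancel_left] at h1
  rw [← h, ← h1]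
  exact (Nat.div_add_mod' _ _).symm

lemma sum_cl {F : Fam m J} {μ : F.Ω → ℕ → ℝ} (h : F.Ker μ) {v K : ℕ} (hJ : v + K ≤ J) {ω : F.Ω}
    (hω : 0 < F.p ω) : ∑ s ∈ cl F v K ω, kv F μ v (v + K) ω s = 1 := by
  unfold cl kv
  rw [Finset.sum_image (by intro i _ j _ hij; simpa using hij), ← Finset.sum_div]
  have h1 := pm_split (μ ω) J (F.T ω) (Nat.le_add_right v K) hJ
  rw [Nat.add_sub_cancel_left] at h1
  have h2 : ∑ i ∈ range (2 ^ K), lowk (μ ω) (J - (v + K)) (F.T1 v ω * 2 ^ K + i) =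
      pm (μ ω) J v (F.T ω) := h1.symm
  rw [h2]
  exact div_self (h.pm_pos hω v).ne'

/-- The total variation, in the mean. -/
lemma Ex_tv {F : Fam m J} {μ : F.Ω → ℕ → ℝ} (h : F.Ker μ) {v K : ℕ} (hJ : v + K ≤ J) {ρ : ℝ}
    (hρ : 0 < ρ) :
    Ex F.p (fun ω => max 0 (1 - rr F.p (F.T1 (v + K)) (Wv F v) (kv F μ v (v + K)) ω)) ≤
      ρ + 1 / ρ * (F.klv μ (v + K) - F.klv μ v) := by
  classical
  have hp := F.isLaw.nonneg
  obtain ⟨R, hR⟩ : ∃ R : F.Ω → ℝ, R = rr F.p (F.T1 (v + K)) (Wv F v) (kv F μ v (v + K)) :=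
    ⟨_, rfl⟩
  rw [← hR]
  have hkT : ∀ ω, kv F μ v (v + K) ω (F.T1 (v + K) ω) =
      pm (μ ω) J (v + K) (F.T ω) / pm (μ ω) J v (F.T ω) := fun ω => rfl
  have hRpos : ∀ ω, 0 < F.p ω → 0 < R ω := by
    intro ω hω
    rw [hR]
    unfold rr
    rw [hkT]
    exact div_pos (mul_pos (div_pos (h.pm_pos hω _) (h.pm_pos hω _)) (law_pos hp _ hω))
      (law_pos hp (fun w => (F.T1 (v + K) w, Wv F v w)) hω)
  have h1 : Ex F.p (fun ω => max 0 (1 - R ω)) ≤
      Ex F.p (fun ω => ρ + 1 / ρ * (-Real.log (R ω) - 1 + R ω)) :=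
    Ex_mono hp fun ω hω => tv_pt (hRpos ω hω) hρ
  have h2 : Ex F.p (fun ω => ρ + 1 / ρ * (-Real.log (R ω) - 1 + R ω)) =
      ρ + 1 / ρ * (Ex F.p (fun ω => -Real.log (R ω)) - 1 + Ex F.p R) := by
    unfold Ex
    have e : ∀ ω, F.p ω * (ρ + 1 / ρ * (-Real.log (R ω) - 1 + R ω)) =
        (ρ - 1 / ρ) * F.p ω + 1 / ρ * (F.p ω * -Real.log (R ω)) + 1 / ρ * (F.p ω * R ω) := by
      intro ω
      ring
    rw [Finset.sum_congr rfl fun ω _ => e ω, Finset.sum_add_distrib, Finset.sum_add_distrib,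
      ← Finset.mul_sum, ← Finset.mul_sum, ← Finset.mul_sum, F.isLaw.sum_one]
    ring
  have h3 : Ex F.p R ≤ 1 := by
    have e1 := tow hp (Wv F v) R
    rw [← e1]
    have e2 : Ex F.p (fun _ => (1 : ℝ)) = 1 := Ex_const F.isLaw.sum_one 1
    rw [← e2]
    refine Ex_mono hp fun ω hω => ?_
    rw [← sum_cl h hJ hω]
    refine le_trans (le_of_eq ?_) (mass_le hp (F.T1 (v + K)) (Wv F v) (kv_nonneg h v (v + K))
      (kv_det h v (v + K)) hω (cl F v K ω))
    refine Finset.sum_congr rfl fun w _ => ?_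
    by_cases hw : Wv F v w = Wv F v ω
    · rw [if_pos, hR]
      have e3 : F.T1 v w = F.T1 v ω := (Prod.ext_iff.1 hw).1
      unfold cl
      refine Finset.mem_image.2 ⟨F.T1 (v + K) w % 2 ^ K, Finset.mem_range.2
        (Nat.mod_lt _ (by positivity)), ?_⟩
      exact (mem_cl hJ e3).symm
    · have e3 : Pool.Agent.H49.Ent.cond F.p (Wv F v) (Wv F v ω) w = 0 := by
        unfold Pool.Agent.H49.Ent.cond
        rw [if_neg hw]
      rw [e3]
      simp
  have h4 : Ex F.p (fun ω => -Real.log (R ω)) = F.klv μ (v + K) - F.klv μ v := by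
    have e1 := h.klv_le (Nat.le_add_right v K) hJ
    have e2 : CH F.p (F.T1 (v + K)) (fun ω => (F.T1 v ω, (F.l ω, F.Z ω))) =
        H F.p (fun w => (F.T1 (v + K) w, Wv F v w)) - H F.p (Wv F v) := rfl
    have e3 : Ex F.p (fun ω => -Real.log (R ω)) =
        Ex F.p (fun ω => -Real.log (pm (μ ω) J (v + K) (F.T ω) / pm (μ ω) J v (F.T ω))) -
          (H F.p (fun w => (F.T1 (v + K) w, Wv F v w)) - H F.p (Wv F v)) := by
      unfold Ex H
      rw [neg_sub_neg, ← Finset.sum_sub_distrib, ← Finset.sum_sub_distrib]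
      refine Finset.sum_congr rfl fun ω _ => ?_
      rcases (hp ω).eq_or_lt with h0 | h0
      · rw [← h0]
        ring
      · have l1 := law_pos hp (Wv F v) h0
        have l2 := law_pos hp (fun w => (F.T1 (v + K) w, Wv F v w)) h0
        have l3 := div_pos (h.pm_pos h0 (v + K)) (h.pm_pos h0 v)
        have e4 : R ω = pm (μ ω) J (v + K) (F.T ω) / pm (μ ω) J v (F.T ω) *
            law F.p (Wv F v) (Wv F v ω) /
              law F.p (fun w => (F.T1 (v + K) w, Wv F v w)) (F.T1 (v + K) ω, Wv F v ω) := by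
          rw [hR]
          rfl
        beta_reduce
        rw [e4, Real.log_div (mul_pos l3 l1).ne' l2.ne', Real.log_mul l3.ne' l1.ne']
        ring
    linarith
  rw [h4] at h2
  have h5 : 1 / ρ * (F.klv μ (v + K) - F.klv μ v - 1 + Ex F.p R) ≤
      1 / ρ * (F.klv μ (v + K) - F.klv μ v) :=
    mul_le_mul_of_nonneg_left (by linarith) (by positivity)
  linarith

open Classical in
/-- One window. -/
lemma one_win {F : Fam m J} {μ : F.Ω → ℕ → ℝ} (h : F.Ker μ) {v K : ℕ} (hJ : v + K ≤ J) {η : ℝ}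
    {ω : F.Ω} (hω : 0 < F.p ω) :
    (∑ w, if |(F.T w : ℝ) - F.T ω| < 2 ^ (J - (v + K)) then
      cond F.p (Wv F v) (Wv F v ω) w else 0) ≤
      (if η * pm (μ ω) J v (F.T ω) < pn (μ ω) J v K (F.T ω) then 1 else η) +
      ∑ w, cond F.p (Wv F v) (Wv F v ω) w *
        max 0 (1 - rr F.p (F.T1 (v + K)) (Wv F v) (kv F μ v (v + K)) w) := by
  have hp := F.isLaw.nonneg
  obtain ⟨R, hR⟩ : ∃ R : F.Ω → ℝ, R = rr F.p (F.T1 (v + K)) (Wv F v) (kv F μ v (v + K)) :=
    ⟨_, rfl⟩
  obtain ⟨c, hc⟩ : ∃ c : F.Ω → ℝ, c = cond F.p (Wv F v) (Wv F v ω) := ⟨_, rfl⟩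
  have hc0 : ∀ w, 0 ≤ c w := by
    intro w
    rw [hc]
    exact cond_nonneg hp _ _ _
  have hc1 : ∑ w, c w = 1 := by
    rw [hc]
    exact sum_cond F.p (Wv F v) (law_pos hp (Wv F v) hω).ne'
  have hh0 : 0 ≤ ∑ w, c w * max 0 (1 - R w) :=
    Finset.sum_nonneg fun w _ => mul_nonneg (hc0 w) (le_max_left _ _)
  rw [← hR, ← hc]
  by_cases hb : η * pm (μ ω) J v (F.T ω) < pn (μ ω) J v K (F.T ω)
  · rw [if_pos hb]
    have h1 : (∑ w, if |(F.T w : ℝ) - F.T ω| < 2 ^ (J - (v + K)) then c w else 0) ≤ ∑ w, c w :=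
      Finset.sum_le_sum fun w _ => by
        split_ifs
        · exact le_rfl
        · exact hc0 w
    linarith
  · rw [if_neg hb]
    push Not at hb
    obtain ⟨M, hM⟩ : ∃ M : Finset ℕ, M = ((range (2 ^ K)).filter fun j =>
        F.T1 v ω * 2 ^ K + j ≤ F.T1 (v + K) ω + 1 ∧
          F.T1 (v + K) ω ≤ F.T1 v ω * 2 ^ K + j + 1).image fun j => F.T1 v ω * 2 ^ K + j :=
      ⟨_, rfl⟩
    have h1 := mass_le hp (F.T1 (v + K)) (Wv F v) (kv_nonneg h v (v + K))
      (kv_det h v (v + K)) hω M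
    have h2 : ∑ s ∈ M, kv F μ v (v + K) ω s ≤ η := by
      rw [hM, Finset.sum_image (by intro i _ j _ hij; simpa using hij), Finset.sum_filter]
      have e1 : ∑ a ∈ range (2 ^ K), (if F.T1 v ω * 2 ^ K + a ≤ F.T1 (v + K) ω + 1 ∧
          F.T1 (v + K) ω ≤ F.T1 v ω * 2 ^ K + a + 1 then
            kv F μ v (v + K) ω (F.T1 v ω * 2 ^ K + a) else 0) =
          pn (μ ω) J v K (F.T ω) / pm (μ ω) J v (F.T ω) := by
        unfold pn
        rw [Finset.sum_div]
        refine Finset.sum_congr rfl fun a _ => ?_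
        have e2 : F.T ω / 2 ^ (J - v) = F.T1 v ω := rfl
        have e3 : F.T ω / 2 ^ (J - (v + K)) = F.T1 (v + K) ω := rfl
        rw [e2, e3]
        split_ifs
        · rfl
        · rw [zero_div]
      rw [e1, div_le_iff₀ (h.pm_pos hω v)]
      exact hb
    have h3 : (∑ w, if |(F.T w : ℝ) - F.T ω| < 2 ^ (J - (v + K)) then c w else 0) ≤
        ∑ w, ((if F.T1 (v + K) w ∈ M then c w * R w else 0) + c w * max 0 (1 - R w)) := by
      refine Finset.sum_le_sum fun w _ => ?_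
      have n1 : 0 ≤ c w * max 0 (1 - R w) := mul_nonneg (hc0 w) (le_max_left _ _)
      have n2 : 0 ≤ R w := by
        rw [hR]
        exact rr_nonneg hp _ _ (kv_nonneg h v (v + K)) w
      have n3 : 0 ≤ (if F.T1 (v + K) w ∈ M then c w * R w else 0) := by
        split_ifs
        · exact mul_nonneg (hc0 w) n2
        · exact le_rfl
      by_cases hd : |(F.T w : ℝ) - F.T ω| < 2 ^ (J - (v + K))
      · rw [if_pos hd]
        by_cases hw : Wv F v w = Wv F v ω
        · have e3 : F.T1 v w = F.T1 v ω := (Prod.ext_iff.1 hw).1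
          have hMw : F.T1 (v + K) w ∈ M := by
            rw [hM]
            refine Finset.mem_image.2 ⟨F.T1 (v + K) w % 2 ^ K, Finset.mem_filter.2
              ⟨Finset.mem_range.2 (Nat.mod_lt _ (by positivity)), ?_⟩, (mem_cl hJ e3).symm⟩
            rw [← mem_cl hJ e3]
            have a1 := abs_lt.1 hd
            have a2 : (F.T w : ℝ) < ((F.T ω + 2 ^ (J - (v + K)) : ℕ) : ℝ) := by
              push_cast
              linarith [a1.2]
            have a3 : (F.T ω : ℝ) < ((F.T w + 2 ^ (J - (v + K)) : ℕ) : ℝ) := by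
              push_cast
              linarith [a1.1]
            have a4 : F.T w < F.T ω + 2 ^ (J - (v + K)) := by exact_mod_cast a2
            have a5 : F.T ω < F.T w + 2 ^ (J - (v + K)) := by exact_mod_cast a3
            have a6 : 0 < 2 ^ (J - (v + K)) := by positivity
            constructor
            · change F.T w / 2 ^ (J - (v + K)) ≤ F.T ω / 2 ^ (J - (v + K)) + 1
              rw [← Nat.add_div_right _ a6]
              exact Nat.div_le_div_right a4.le
            · change F.T ω / 2 ^ (J - (v + K)) ≤ F.T w / 2 ^ (J - (v + K)) + 1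
              rw [← Nat.add_div_right _ a6]
              exact Nat.div_le_div_right a5.le
          rw [if_pos hMw]
          have e4 : 1 ≤ R w + max 0 (1 - R w) := by
            have := le_max_right 0 (1 - R w)
            linarith
          calc c w = c w * 1 := (mul_one _).symm
            _ ≤ c w * (R w + max 0 (1 - R w)) := mul_le_mul_of_nonneg_left e4 (hc0 w)
            _ = _ := by ring
        · have e3 : c w = 0 := by
            rw [hc]
            unfold Pool.Agent.H49.Ent.cond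
            rw [if_neg hw]
          linarith
      · rw [if_neg hd]
        linarith
    rw [Finset.sum_add_distrib] at h3
    rw [← hR, ← hc] at h1
    linarith

lemma klv_zero {F : Fam m J} {μ : F.Ω → ℕ → ℝ} (h : F.Ker μ) : 0 ≤ F.klv μ 0 := by
  have hp := F.isLaw.nonneg
  have hT : ∀ ω, F.T ω / 2 ^ (J - 0) = 0 := by
    intro ω
    rw [Nat.sub_zero]
    exact Nat.div_eq_of_lt (F.tim ω)
  have h1 : CH F.p (F.T1 0) (fun ω => (F.l ω, F.Z ω)) = 0 := by
    refine CH_eq_zero hp ?_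
    intro ω ω' _ _ _
    change F.T ω / 2 ^ (J - 0) = F.T ω' / 2 ^ (J - 0)
    rw [hT, hT]
  unfold Fam.klv
  rw [h1, sub_zero]
  refine Ex_nonneg hp fun ω hω => ?_
  rw [neg_nonneg]
  refine Real.log_nonpos (h.pm_pos hω 0).le ?_
  rw [pm_eq, hT]
  unfold lowk
  rw [Nat.sub_zero]
  simp only [Nat.zero_mul, Nat.zero_add]
  exact h.sum ω

open Classical in
/-- **(TBP)** -/
theorem tbp (F : Fam m J) (s : Prop) (K : ℕ) (η r n e ρ : ℝ) (hρ : 0 < ρ) (hη : 0 ≤ η)
    (hF : F.TG s K η r n e) :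
    ∃ g : F.Ω → ℝ, (∀ ω, 0 ≤ g ω) ∧ Ex F.p g ≤ ρ * J + K * e / ρ ∧
      ∀ ω, 0 < F.p ω → ∀ a b : ℕ, a ≤ b → b ≤ J →
        (∑ v ∈ (Ico a b).filter (fun v => v + K ≤ J),
          ∑ w, if |(F.T w : ℝ) - F.T ω| < 2 ^ (J - (v + K)) then
            cond F.p (fun w => (F.T1 v w, (F.l w, F.Z w))) (F.T1 v ω, (F.l ω, F.Z ω)) w else 0) ≤
        n + (r + η) * ((b : ℝ) - a) + g ω := by
  obtain ⟨μ, hK, -, hL, hkl⟩ := hF
  have hp := F.isLaw.nonneg
  obtain ⟨G, hG⟩ : ∃ G : ℕ → F.Ω → ℝ, ∀ v ω, G v ω = ∑ w, cond F.p (Wv F v) (Wv F v ω) w *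
    max 0 (1 - rr F.p (F.T1 (v + K)) (Wv F v) (kv F μ v (v + K)) w) := ⟨_, fun _ _ => rfl⟩
  have hG0 : ∀ v ω, 0 ≤ G v ω := by
    intro v ω
    rw [hG]
    exact Finset.sum_nonneg fun w _ => mul_nonneg (cond_nonneg hp _ _ _) (le_max_left _ _)
  refine ⟨fun ω => ∑ v ∈ (range J).filter (fun v => v + K ≤ J), G v ω,
    fun ω => Finset.sum_nonneg fun v _ => hG0 v ω, ?_, ?_⟩
  · have e1 : Ex F.p (fun ω => ∑ v ∈ (range J).filter (fun v => v + K ≤ J), G v ω) =
        ∑ v ∈ (range J).filter (fun v => v + K ≤ J), Ex F.p (G v) := by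
      unfold Ex
      rw [Finset.sum_comm]
      exact Finset.sum_congr rfl fun ω _ => Finset.mul_sum _ _ _
    rw [e1]
    have e2 : ∀ v ∈ (range J).filter (fun v => v + K ≤ J), Ex F.p (G v) ≤
        ρ + 1 / ρ * (F.klv μ (v + K) - F.klv μ v) := by
      intro v hv
      have e3 : G v = fun ω => ∑ w, cond F.p (Wv F v) (Wv F v ω) w *
          max 0 (1 - rr F.p (F.T1 (v + K)) (Wv F v) (kv F μ v (v + K)) w) := by
        funext ω
        exact hG v ω
      rw [e3, tow hp]
      exact Ex_tv hK (Finset.mem_filter.1 hv).2 hρ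
    refine (Finset.sum_le_sum e2).trans ?_
    rw [Finset.sum_add_distrib, Finset.sum_const, nsmul_eq_mul, ← Finset.mul_sum]
    have e4 : (((range J).filter (fun v => v + K ≤ J)).card : ℝ) ≤ J := by
      have := Finset.card_filter_le (range J) (fun v => v + K ≤ J)
      rw [Finset.card_range] at this
      exact_mod_cast this
    have e5 := tele (f := F.klv μ) (J := J) (fun v v' h1 h2 => hK.klv_mono h1 h2) (klv_zero hK) K
    have e6 : F.klv μ J ≤ e := by
      rw [F.klv_top]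
      exact hkl
    have e7 : 1 / ρ * ∑ v ∈ (range J).filter (fun v => v + K ≤ J),
        (F.klv μ (v + K) - F.klv μ v) ≤ K * e / ρ := by
      have h1 : (K : ℝ) * F.klv μ J ≤ K * e := mul_le_mul_of_nonneg_left e6 (Nat.cast_nonneg K)
      calc 1 / ρ * ∑ v ∈ (range J).filter (fun v => v + K ≤ J),
            (F.klv μ (v + K) - F.klv μ v) ≤ 1 / ρ * (K * e) :=
            mul_le_mul_of_nonneg_left (e5.trans h1) (by positivity)
        _ = K * e / ρ := by ring
    have e8 : (((range J).filter (fun v => v + K ≤ J)).card : ℝ) * ρ ≤ J * ρ :=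
      mul_le_mul_of_nonneg_right e4 hρ.le
    linarith
  · intro ω hω a b hab hbJ
    have h1 : ∀ v ∈ (Ico a b).filter (fun v => v + K ≤ J),
        (∑ w, if |(F.T w : ℝ) - F.T ω| < 2 ^ (J - (v + K)) then
          cond F.p (fun w => (F.T1 v w, (F.l w, F.Z w))) (F.T1 v ω, (F.l ω, F.Z ω)) w else 0) ≤
        (if η * pm (μ ω) J v (F.T ω) < pn (μ ω) J v K (F.T ω) then 1 else η) + G v ω := by
      intro v hv
      rw [hG]
      exact one_win hK (Finset.mem_filter.1 hv).2 hω
    refine (Finset.sum_le_sum h1).trans ?_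
    rw [Finset.sum_add_distrib]
    have h2 : ∑ v ∈ (Ico a b).filter (fun v => v + K ≤ J), G v ω ≤
        ∑ v ∈ (range J).filter (fun v => v + K ≤ J), G v ω := by
      refine Finset.sum_le_sum_of_subset_of_nonneg ?_ fun v _ _ => hG0 v ω
      intro v hv
      simp only [Finset.mem_filter, Finset.mem_Ico, Finset.mem_range] at hv ⊢
      omega
    have h3 : ∑ v ∈ (Ico a b).filter (fun v => v + K ≤ J),
        (if η * pm (μ ω) J v (F.T ω) < pn (μ ω) J v K (F.T ω) then (1 : ℝ) else η) ≤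
        nbad (μ ω) J K η (F.T ω) a b + η * ((b : ℝ) - a) := by
      have e1 : ∀ v, (if η * pm (μ ω) J v (F.T ω) < pn (μ ω) J v K (F.T ω) then (1 : ℝ) else η) ≤
          (if η * pm (μ ω) J v (F.T ω) < pn (μ ω) J v K (F.T ω) then (1 : ℝ) else 0) + η := by
        intro v
        split_ifs <;> linarith
      refine (Finset.sum_le_sum fun v _ => e1 v).trans ?_
      rw [Finset.sum_add_distrib, Finset.sum_const, nsmul_eq_mul, ← Finset.sum_filter,
        Finset.sum_const, nsmul_eq_mul, mul_one, Finset.filter_filter]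
      have e2 : (((Ico a b).filter (fun v => v + K ≤ J)).card : ℝ) ≤ (b : ℝ) - a := by
        have := Finset.card_filter_le (Ico a b) (fun v => v + K ≤ J)
        rw [Nat.card_Ico] at this
        have h4 : (((Ico a b).filter (fun v => v + K ≤ J)).card : ℝ) ≤ ((b - a : ℕ) : ℝ) := by
          exact_mod_cast this
        rwa [Nat.cast_sub hab] at h4
      have e3 : (((Ico a b).filter (fun v => v + K ≤ J)).card : ℝ) * η ≤ ((b : ℝ) - a) * η :=
        mul_le_mul_of_nonneg_right e2 hη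
      have e4 : ((Ico a b).filter (fun v => v + K ≤ J ∧
          η * pm (μ ω) J v (F.T ω) < pn (μ ω) J v K (F.T ω))).card =
          nbad (μ ω) J K η (F.T ω) a b := rfl
      rw [e4]
      linarith
    have h4 := hL ω hω a b hab hbJ
    linarith

end Pool.KA.TBP
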