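import Pool.Agent.H85.TG.Ker

/-!
# Times with live windows: two samples (row TBP)
-/

set_option autoImplicit false

namespace Pool.KA.TBP

open Finset Real
open Pool.Agent.H49.Ent Pool.Agent.H32.Dense Pool.STK

section Gen

variable {Ω U : Type} [Fintype Ω] {p : Ω → ℝ}

/-- Tower property. -/
lemma tow (hp : ∀ ω, 0 ≤ p ω) (Z : Ω → U) (g : Ω → ℝ) :
    Ex p (fun ω => ∑ w, cond p Z (Z ω) w * g w) = Ex p g := by
  classical
  unfold Ex
  simp_rw [Finset.mul_sum]
  rw [Finset.sum_comm]
  refine Finset.sum_congr rfl fun ω' _ => ?_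
  have e1 : ∀ ω, p ω * (cond p Z (Z ω) ω' * g ω') =
      (p ω' * g ω' / law p Z (Z ω')) * (if Z ω = Z ω' then p ω else 0) := by
    intro ω
    unfold Pool.Agent.H49.Ent.cond
    by_cases h : Z ω' = Z ω
    · rw [if_pos h, if_pos h.symm, h]
      ring
    · rw [if_neg h, if_neg (fun h' => h h'.symm)]
      ring
  simp_rw [e1]
  rw [← Finset.mul_sum]
  have e2 : ∑ ω, (if Z ω = Z ω' then p ω else 0) = law p Z (Z ω') := by
    unfold law
    rfl
  rw [e2]
  rcases (hp ω').eq_or_lt with h0 | h0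
  · rw [← h0]
    ring
  · have hl := law_pos hp Z h0
    field_simp

/-- The density of the kernel with respect to the law. -/
noncomputable def rr (p : Ω → ℝ) (X : Ω → ℕ) (W : Ω → U) (k : Ω → ℕ → ℝ) (ω : Ω) : ℝ :=
  k ω (X ω) * law p W (W ω) / law p (fun w => (X w, W w)) (X ω, W ω)

lemma rr_nonneg (hp : ∀ ω, 0 ≤ p ω) (X : Ω → ℕ) (W : Ω → U) {k : Ω → ℕ → ℝ}
    (hk : ∀ ω s, 0 ≤ k ω s) (ω : Ω) : 0 ≤ rr p X W k ω :=
  div_nonneg (mul_nonneg (hk _ _) (law_nonneg hp _ _)) (law_nonneg hp _ _)

open Classical in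
/-- The mass of the kernel. -/
lemma mass_le (hp : ∀ ω, 0 ≤ p ω) (X : Ω → ℕ) (W : Ω → U) {k : Ω → ℕ → ℝ}
    (hk : ∀ ω s, 0 ≤ k ω s) (hd : Det p W k) {ω₀ : Ω} (h₀ : 0 < p ω₀) (M : Finset ℕ) :
    ∑ w, (if X w ∈ M then cond p W (W ω₀) w * rr p X W k w else 0) ≤ ∑ s ∈ M, k ω₀ s := by
  have h1 : ∀ w, (if X w ∈ M then cond p W (W ω₀) w * rr p X W k w else 0) =
      ∑ s ∈ M, (if (X w, W w) = (s, W ω₀) then p w else 0) *
        (k ω₀ s / law p (fun w => (X w, W w)) (s, W ω₀)) := by
    intro w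
    have hl := law_pos hp W h₀
    rcases (hp w).eq_or_lt with h0 | h0
    · have e1 : cond p W (W ω₀) w = 0 := by
        unfold Pool.Agent.H49.Ent.cond
        rw [← h0]
        simp
      rw [e1]
      symm
      rw [zero_mul, ite_self]
      refine Finset.sum_eq_zero fun s _ => ?_
      rw [← h0, ite_self, zero_mul]
    · by_cases hw : W w = W ω₀
      · have e1 : cond p W (W ω₀) w = p w / law p W (W ω₀) := by
          unfold Pool.Agent.H49.Ent.cond
          rw [if_pos hw]
        have e2 : k w = k ω₀ := hd w ω₀ h0 h₀ hw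
        have e3 : rr p X W k w = k ω₀ (X w) * law p W (W ω₀) /
            law p (fun w => (X w, W w)) (X w, W ω₀) := by
          unfold rr
          rw [e2, hw]
        by_cases hM : X w ∈ M
        · rw [if_pos hM, Finset.sum_eq_single (X w)]
          · rw [if_pos (by rw [hw]), e1, e3]
            field_simp
          · intro s _ hs
            rw [if_neg, zero_mul]
            intro h
            exact hs (Prod.ext_iff.1 h).1.symm
          · intro h
            exact absurd hM h
        · rw [if_neg hM]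
          symm
          refine Finset.sum_eq_zero fun s hs => ?_
          rw [if_neg, zero_mul]
          intro h
          have h' : X w = s := (Prod.ext_iff.1 h).1
          rw [h'] at hM
          exact hM hs
      · have e1 : cond p W (W ω₀) w = 0 := by
          unfold Pool.Agent.H49.Ent.cond
          rw [if_neg hw]
        rw [e1, zero_mul, ite_self]
        symm
        refine Finset.sum_eq_zero fun s _ => ?_
        rw [if_neg, zero_mul]
        intro h
        exact hw (Prod.ext_iff.1 h).2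
  rw [Finset.sum_congr rfl fun w _ => h1 w, Finset.sum_comm]
  refine Finset.sum_le_sum fun s _ => ?_
  rw [← Finset.sum_mul]
  have e4 : ∑ w, (if (X w, W w) = (s, W ω₀) then p w else 0) =
      law p (fun w => (X w, W w)) (s, W ω₀) := by
    unfold law
    refine Finset.sum_congr rfl fun w _ => ?_
    by_cases h : (X w, W w) = (s, W ω₀)
    · rw [if_pos h, if_pos h]
    · rw [if_neg h, if_neg h]
  rw [e4]
  rcases (law_nonneg hp (fun w => (X w, W w)) (s, W ω₀)).eq_or_lt with h0 | h0
  · rw [← h0, zero_mul]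
    exact hk _ _
  · rw [mul_div_assoc', mul_comm, mul_div_assoc, div_self h0.ne', mul_one]

/-- Elementary inequality. -/
lemma tv_pt {r ρ : ℝ} (hr : 0 < r) (hρ : 0 < ρ) :
    max 0 (1 - r) ≤ ρ + 1 / ρ * (-Real.log r - 1 + r) := by
  have h0 : 0 ≤ -Real.log r - 1 + r := by
    have := Real.log_le_sub_one_of_pos hr
    linarith
  have h1 : 0 ≤ 1 / ρ * (-Real.log r - 1 + r) := by positivity
  refine max_le (by linarith) ?_
  by_cases h2 : 1 ≤ r
  · linarith
  push Not at h2
  -- the quadratic bound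
  have h3 : (1 - r) ^ 2 / 2 ≤ -Real.log r - 1 + r := by
    have h4 : |1 - r| < 1 := by
      rw [abs_lt]
      constructor <;> linarith
    have h4' : 0 ≤ 1 - r := by linarith
    have h5 := sum_le_hasSum (range 2) (fun n _ => by positivity)
      (Real.hasSum_pow_div_log_of_abs_lt_one h4)
    rw [sub_sub_cancel, Finset.sum_range_succ, Finset.sum_range_one] at h5
    norm_num at h5
    linarith
  have h6 : 1 - r ≤ ρ + 1 / ρ * ((1 - r) ^ 2 / 2) := by
    have h7 : 0 ≤ (ρ - (1 - r) / 2) ^ 2 := sq_nonneg _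
    have h8 : (1 - r) * ρ ≤ ρ * ρ + (1 - r) ^ 2 / 2 := by nlinarith [sq_nonneg (1 - r)]
    rw [← sub_nonneg]
    have e : ρ + 1 / ρ * ((1 - r) ^ 2 / 2) - (1 - r) =
        (ρ * ρ + (1 - r) ^ 2 / 2 - (1 - r) * ρ) / ρ := by
      field_simp
    rw [e]
    exact div_nonneg (by linarith) hρ.le
  have h9 := mul_le_mul_of_nonneg_left h3 (by positivity : (0 : ℝ) ≤ 1 / ρ)
  linarith

end Gen

end Pool.KA.TBP
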